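import Pool.Agent.JNN.Final

/-!
# MP_48ea53_gt : the minimal volume of polar projection bodies of origin-symmetric convex bodies,
all dimensions

`|K|^(n-1) |Π° K| ≥ 2^n / n!` for every origin-symmetric convex body `K` of `R^n`, `n ≥ 1`, with
equality exactly for parallelepipeds.  The definitions are in `Pool/Agent/ZHS/Statement.lean`.
-/

set_option autoImplicit false

namespace Pool.Agent.Results.MP_48ea53_gt.SymmetricBodiesAllDimensions

open Pool.Agent.ZHS.S3

theorem result (n : ℕ) (hn : 1 ≤ n) :
    IsLeast {c : ℝ | ∃ K : Set (En n), IsSymBody K ∧ c = Phi K} (2 ^ n / n.factorial) ∧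
    ∀ K : Set (En n), IsSymBody K → (Phi K = 2 ^ n / n.factorial ↔ IsParallelepiped K) :=
  Pool.Agent.JNN.final n hn

end Pool.Agent.Results.MP_48ea53_gt.SymmetricBodiesAllDimensions
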